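import Pool.Agent.Y504.CO.Stm7
import Pool.Agent.Y832.CO.LB

/-!
# Job CO-NB (helper450): hyperbolicity of matrices is open, and invariant under conjugation
-/

set_option autoImplicit false
set_option linter.unusedSectionVars false

open scoped Manifold ContDiff Topology
open Filter Set Metric

universe u

namespace Pool.Agent.Y450.CO

open Pool.Agent.H718R2.G Pool.Agent.TH80.OMS Pool.Agent.Y504.CO

/-- Openness of hyperbolicity. -/
theorem nb_open (n : ℕ) (A : V n →L[ℝ] V n) (hA : NoBdd (fun _ => A)) :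
    ∃ ε : ℝ, 0 < ε ∧ ∀ B : V n →L[ℝ] V n, ‖B - A‖ < ε → NoBdd (fun _ => B) := by
  obtain ⟨c, hc, N₀, h⟩ := Pool.Agent.Y832.CO.LB.main (V n) (fun _ => A) A tendsto_const_nhds
    tendsto_const_nhds hA hA
  refine ⟨c / 2, by positivity, ?_⟩
  intro B hB v hv hrec
  obtain ⟨C, hC⟩ := hv
  have key : ∀ C : ℝ, (∀ i, ‖v i‖ ≤ C) → ∀ i, ‖v i‖ ≤ C / 2 := by
    intro C hC i
    have hC0 : 0 ≤ C := le_trans (norm_nonneg _) (hC 0)
    have h1 := h N₀ le_rfl ∅ (fun _ => A) (fun _ _ => rfl) (fun _ s hs => absurd hs (by simp)) v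
      ⟨C, hC⟩ (c / 2 * C) (by
        intro i
        rw [hrec i]
        have e : B (v i) - A (v i) = (B - A) (v i) := by simp
        rw [e]
        calc ‖(B - A) (v i)‖ ≤ ‖B - A‖ * ‖v i‖ := (B - A).le_opNorm _
          _ ≤ c / 2 * C := by
            apply mul_le_mul hB.le (hC i) (norm_nonneg _) (by positivity)) i
    have h2 : c * ‖v i‖ ≤ c * (C / 2) := by linarith
    exact le_of_mul_le_mul_left h2 hc
  have key2 : ∀ k : ℕ, ∀ i, ‖v i‖ ≤ C / 2 ^ k := by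
    intro k
    induction k with
    | zero => simpa using hC
    | succ k ih =>
      intro i
      have := key _ ih i
      rw [pow_succ, ← div_div]
      exact this
  intro i
  have h3 : Tendsto (fun k : ℕ => C / 2 ^ k) atTop (𝓝 0) := by
    have h4 : Tendsto (fun k : ℕ => C * (1 / 2 : ℝ) ^ k) atTop (𝓝 (C * 0)) :=
      (tendsto_pow_atTop_nhds_zero_of_lt_one (by norm_num) (by norm_num)).const_mul C
    rw [mul_zero] at h4
    refine h4.congr (fun k => ?_)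
    rw [one_div, inv_pow, div_eq_mul_inv]
  have h5 : ‖v i‖ ≤ 0 := ge_of_tendsto' h3 (fun k => key2 k i)
  exact norm_le_zero_iff.1 h5

section mfd

variable {n : ℕ} {N : Type u} [TopologicalSpace N] [ChartedSpace (V n) N] [IsManifold (𝓡 n) ∞ N]

theorem iter_smooth {f : N → N} (hf : ContMDiff (𝓡 n) (𝓡 n) 1 f) (k : ℕ) :
    ContMDiff (𝓡 n) (𝓡 n) 1 (f^[k]) := by
  induction k with
  | zero => exact contMDiff_id
  | succ k ih => exact ih.comp hf

theorem diffAt {f : N → N} (hf : ContMDiff (𝓡 n) (𝓡 n) 1 f) {φ ψ : OpenPartialHomeomorph N (V n)}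
    (hφ : φ ∈ IsManifold.maximalAtlas (𝓡 n) ∞ N) (hψ : ψ ∈ IsManifold.maximalAtlas (𝓡 n) ∞ N)
    {x : N} (hx : x ∈ φ.source) (hfx : f x ∈ ψ.source) :
    DifferentiableAt ℝ (fun v => ψ (f (φ.symm v))) (φ x) := by
  have h1 : ContMDiffAt (𝓡 n) (𝓡 n) 1 φ.symm (φ x) :=
    (((contMDiffOn_symm_of_mem_maximalAtlas hφ).of_le (by exact_mod_cast le_top)).contMDiffAt
      (φ.open_target.mem_nhds (φ.map_source hx)))
  have h2 : ContMDiffAt (𝓡 n) (𝓡 n) 1 ψ (f x) :=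
    (((contMDiffOn_of_mem_maximalAtlas hψ).of_le (by exact_mod_cast le_top)).contMDiffAt
      (ψ.open_source.mem_nhds hfx))
  have e : φ.symm (φ x) = x := φ.left_inv hx
  have h0 : ContMDiffAt (𝓡 n) (𝓡 n) 1 (fun v => f (φ.symm v)) (φ x) :=
    ContMDiffAt.comp (I' := 𝓡 n) (g := f) (f := φ.symm) (φ x) (hf (φ.symm (φ x))) h1
  have h2' : ContMDiffAt (𝓡 n) (𝓡 n) 1 ψ (f (φ.symm (φ x))) := by
    rw [e]
    exact h2
  have h3 : ContMDiffAt (𝓡 n) (𝓡 n) 1 (fun v => ψ (f (φ.symm v))) (φ x) :=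
    ContMDiffAt.comp (I' := 𝓡 n) (g := ψ) (f := fun v => f (φ.symm v)) (φ x) h2' h0
  exact (contMDiffAt_iff_contDiffAt.1 h3).differentiableAt (by norm_num)

theorem dcomp {f g : N → N} (hf : ContMDiff (𝓡 n) (𝓡 n) 1 f) (hg : ContMDiff (𝓡 n) (𝓡 n) 1 g)
    {χ φ ψ : OpenPartialHomeomorph N (V n)}
    (hχ : χ ∈ IsManifold.maximalAtlas (𝓡 n) ∞ N)
    (hφ : φ ∈ IsManifold.maximalAtlas (𝓡 n) ∞ N) (hψ : ψ ∈ IsManifold.maximalAtlas (𝓡 n) ∞ N)
    {x : N} (hx : x ∈ χ.source) (hgx : g x ∈ φ.source) (hfx : f (g x) ∈ ψ.source) :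
    fderiv ℝ (fun v => ψ (f (g (χ.symm v)))) (χ x) =
      (fderiv ℝ (fun v => ψ (f (φ.symm v))) (φ (g x))).comp
        (fderiv ℝ (fun v => φ (g (χ.symm v))) (χ x)) := by
  have h1 := (diffAt hg hχ hφ hx hgx).hasFDerivAt
  have h2 := (diffAt hf hφ hψ hgx hfx).hasFDerivAt
  have e : χ.symm (χ x) = x := χ.left_inv hx
  have h3 : HasFDerivAt ((fun v => ψ (f (φ.symm v))) ∘ (fun v => φ (g (χ.symm v))))
      ((fderiv ℝ (fun v => ψ (f (φ.symm v))) (φ (g x))).comp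
        (fderiv ℝ (fun v => φ (g (χ.symm v))) (χ x))) (χ x) := by
    apply HasFDerivAt.comp
    · show HasFDerivAt _ _ (φ (g (χ.symm (χ x))))
      rw [e]
      exact h2
    · exact h1
  have h4 : (fun v => ψ (f (g (χ.symm v)))) =ᶠ[𝓝 (χ x)]
      ((fun v => ψ (f (φ.symm v))) ∘ (fun v => φ (g (χ.symm v)))) := by
    have c1 : ContinuousAt (fun v => g (χ.symm v)) (χ x) :=
      ContinuousAt.comp (g := g) (f := χ.symm) hg.continuous.continuousAt
        (χ.continuousAt_symm (χ.map_source hx))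
    have c2 : ∀ᶠ v in 𝓝 (χ x), g (χ.symm v) ∈ φ.source := by
      apply c1.eventually
      apply φ.open_source.mem_nhds
      show g (χ.symm (χ x)) ∈ φ.source
      rw [e]
      exact hgx
    filter_upwards [c2] with v hv
    show ψ (f (g (χ.symm v))) = ψ (f (φ.symm (φ (g (χ.symm v)))))
    rw [φ.left_inv hv]
  exact (h3.congr_of_eventuallyEq h4).fderiv

theorem did {ψ : OpenPartialHomeomorph N (V n)} {x : N} (hx : x ∈ ψ.source) :
    fderiv ℝ (fun v => ψ (id (id (ψ.symm v)))) (ψ x) = ContinuousLinearMap.id ℝ (V n) := by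
  have h : (fun v => ψ (id (id (ψ.symm v)))) =ᶠ[𝓝 (ψ x)] id := by
    filter_upwards [ψ.open_target.mem_nhds (ψ.map_source hx)] with v hv
    show ψ (ψ.symm v) = v
    exact ψ.right_inv hv
  exact ((hasFDerivAt_id _).congr_of_eventuallyEq h).fderiv

end mfd

/-- Conjugation invariance, linear algebra. -/
theorem nb_conj {n : ℕ} (P D Q D' : V n →L[ℝ] V n) (hPQ : P.comp Q = ContinuousLinearMap.id ℝ (V n))
    (hQP : Q.comp P = ContinuousLinearMap.id ℝ (V n)) (hD : D' = P.comp (D.comp Q))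
    (h : NoBdd (fun _ => D)) : NoBdd (fun _ => D') := by
  intro v hv hrec i
  obtain ⟨C, hC⟩ := hv
  have hPQ' : ∀ w, P (Q w) = w := fun w => by
    have := congrArg (fun L : V n →L[ℝ] V n => L w) hPQ
    exact this
  have hQP' : ∀ w, Q (P w) = w := fun w => by
    have := congrArg (fun L : V n →L[ℝ] V n => L w) hQP
    exact this
  have h1 := h (fun i => Q (v i)) ⟨‖Q‖ * C, fun i =>
    (Q.le_opNorm _).trans (mul_le_mul_of_nonneg_left (hC i) (norm_nonneg _))⟩ (by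
      intro i
      show Q (v (i + 1)) = D (Q (v i))
      rw [hrec i, hD]
      show Q (P (D (Q (v i)))) = D (Q (v i))
      rw [hQP']) i
  have h2 : Q (v i) = 0 := h1
  rw [← hPQ' (v i), h2, map_zero]

theorem main : S_NB.{u} := by
  refine ⟨nb_open, ?_⟩
  intro n N _ _ _ _ r hr g K x hgx φ hφ ψ hψ hxφ hxψ h
  have hg : ContMDiff (𝓡 n) (𝓡 n) 1 g := g.contMDiff.of_le (by exact_mod_cast hr)
  have hgK : ContMDiff (𝓡 n) (𝓡 n) 1 (g^[K]) := iter_smooth hg K
  have hid : ContMDiff (𝓡 n) (𝓡 n) 1 (id : N → N) := contMDiff_id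
  have e1 := dcomp (f := id) (g := id) (x := x) hid hid hψ hφ hψ hxψ hxφ hxψ
  have e2 := dcomp (f := id) (g := id) (x := x) hid hid hφ hψ hφ hxφ hxψ hxφ
  have e3 := dcomp (f := g^[K]) (g := id) (x := x) hgK hid hψ hφ hφ hxψ hxφ (by
    show g^[K] x ∈ φ.source
    rw [hgx]
    exact hxφ)
  have e4 := dcomp (f := id) (g := g^[K]) (x := x) hid hgK hψ hφ hψ hxψ (by
    rw [hgx]
    exact hxφ) (by
    show g^[K] x ∈ ψ.source
    rw [hgx]
    exact hxψ)
  rw [did hxψ] at e1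
  rw [did hxφ] at e2
  rw [hgx] at e4
  refine nb_conj (fderiv ℝ (fun v => ψ (id (φ.symm v))) (φ x))
    (fderiv ℝ (fun v => φ (g^[K] (φ.symm v))) (φ x))
    (fderiv ℝ (fun v => φ (id (ψ.symm v))) (ψ x)) _ e1.symm e2.symm ?_ h
  have e5 : fderiv ℝ (fun v => φ (g^[K] (ψ.symm v))) (ψ x) =
      (fderiv ℝ (fun v => φ (g^[K] (φ.symm v))) (φ x)).comp
        (fderiv ℝ (fun v => φ (id (ψ.symm v))) (ψ x)) := e3
  rw [← e5]
  exact e4

end Pool.Agent.Y450.CO
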